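import Mathlib

/-!
# Partial sums of the binomial series: algebra
-/

set_option autoImplicit false

namespace Pool.Agent.K9h78.Brannan

open Finset

/-- generalized binomial coefficient -/
noncomputable def b (α : ℝ) (k : ℕ) : ℝ := (∏ j ∈ range k, (α - (j : ℝ))) / (k.factorial : ℝ)

lemma b_zero (α : ℝ) : b α 0 = 1 := by simp [b]

lemma b_succ (α : ℝ) (k : ℕ) : b α (k + 1) = b α k * (α - k) / (k + 1) := by
  unfold b
  rw [prod_range_succ, Nat.factorial_succ]
  push_cast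
  have h1 : (k.factorial : ℝ) ≠ 0 := by positivity
  have h2 : (k : ℝ) + 1 ≠ 0 := by positivity
  field_simp

lemma b_one (α : ℝ) : b α 1 = α := by
  have := b_succ α 0
  simpa [b_zero] using this

lemma b_two (α : ℝ) : b α 2 = α * (α - 1) / 2 := by
  have := b_succ α 1
  rw [b_one] at this
  rw [show (2 : ℕ) = 1 + 1 from rfl, this]
  norm_num

/-- `(k+1) b(α+1,k+1) = (α+1) b(α,k)` -/
lemma b_absorb (α : ℝ) (k : ℕ) : ((k : ℝ) + 1) * b (α + 1) (k + 1) = (α + 1) * b α k := by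
  induction k with
  | zero => simp [b_zero, b_one]
  | succ k ih =>
    have h2 : (k : ℝ) + 1 ≠ 0 := by positivity
    have h3 : (k : ℝ) + 1 + 1 ≠ 0 := by positivity
    rw [b_succ (α + 1) (k + 1), b_succ α k]
    push_cast
    have e1 : b (α + 1) (k + 1) = (α + 1) * b α k / (k + 1) := by
      rw [← ih]; field_simp
    rw [e1]
    field_simp
    ring

/-- Pascal's rule -/
lemma b_pascal (α : ℝ) (k : ℕ) : b (α + 1) (k + 1) = b α (k + 1) + b α k := by
  have h2 : (k : ℝ) + 1 ≠ 0 := by positivity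
  have e1 : b (α + 1) (k + 1) = (α + 1) * b α k / (k + 1) := by
    rw [← b_absorb α k]; field_simp
  rw [e1, b_succ]
  field_simp
  ring

/-- the partial sum -/
noncomputable def A (α : ℝ) (n : ℕ) (x : ℂ) : ℂ := ∑ k ∈ range (n + 1), (b α k : ℂ) * x ^ k

/-- its value at one -/
noncomputable def V (α : ℝ) (n : ℕ) : ℝ := ∑ k ∈ range (n + 1), b α k

lemma A_one (α : ℝ) (n : ℕ) : A α n 1 = (V α n : ℂ) := by
  simp [A, V]

lemma A_succ (α : ℝ) (n : ℕ) (x : ℂ) : A α (n + 1) x = A α n x + (b α (n + 1) : ℂ) * x ^ (n + 1) := by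
  rw [A, sum_range_succ, ← A]

lemma V_succ (α : ℝ) (n : ℕ) : V α (n + 1) = V α n + b α (n + 1) := by
  rw [V, sum_range_succ, ← V]

lemma A_zero (α : ℝ) (x : ℂ) : A α 0 x = 1 := by simp [A, b_zero]

lemma V_zero (α : ℝ) : V α 0 = 1 := by simp [V, b_zero]

/-- `A(α+1, n+1, x) = A(α, n+1, x) + x A(α, n, x)` -/
lemma A_pascal (α : ℝ) (n : ℕ) (x : ℂ) :
    A (α + 1) (n + 1) x = A α (n + 1) x + x * A α n x := by
  induction n with
  | zero => simp [A, sum_range_succ, b_zero, b_one]; ring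
  | succ n ih =>
    rw [A_succ (α + 1) (n + 1), ih, A_succ α (n + 1), A_succ α n, b_pascal α (n + 1)]
    push_cast
    ring

lemma V_pascal (α : ℝ) (n : ℕ) : V (α + 1) (n + 1) = V α (n + 1) + V α n := by
  have := A_pascal α n 1
  rw [A_one, A_one, A_one, one_mul] at this
  exact_mod_cast this

/-- `A(α+1, n+1, x) = (1+x) A(α, n, x) + b(α, n+1) x^(n+1)` -/
lemma A_factor (α : ℝ) (n : ℕ) (x : ℂ) :
    A (α + 1) (n + 1) x = (1 + x) * A α n x + (b α (n + 1) : ℂ) * x ^ (n + 1) := by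
  rw [A_pascal, A_succ]; ring

/-- `(1+x) A(α, n, x) = A(α+1, n, x) + b(α, n) x^(n+1)` -/
lemma A_factor' (α : ℝ) (n : ℕ) (x : ℂ) :
    (1 + x) * A α n x = A (α + 1) n x + (b α n : ℂ) * x ^ (n + 1) := by
  have h1 := A_factor α n x
  have h2 := A_succ (α + 1) n x
  rw [h2, b_pascal] at h1
  push_cast at h1
  linear_combination -h1

/-- alternating sums telescope -/
lemma alt_sum (α : ℝ) (n : ℕ) :
    ∑ k ∈ range (n + 1), (-1) ^ k * b (α + 1) k = (-1) ^ n * b α n := by
  induction n with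
  | zero => simp [b_zero]
  | succ n ih =>
    rw [sum_range_succ, ih, b_pascal, pow_succ]
    ring

/-- The inductive step in `α`. -/
lemma step {α : ℝ} (h : ∀ n x, ‖x‖ = 1 → ‖A α n x‖ ≤ V α n) :
    ∀ n x, ‖x‖ = 1 → ‖A (α + 1) n x‖ ≤ V (α + 1) n := by
  intro n x hx
  cases n with
  | zero => simp [A_zero, V_zero]
  | succ n =>
    rw [A_pascal, V_pascal]
    refine (norm_add_le _ _).trans (add_le_add (h _ x hx) ?_)
    rw [norm_mul, hx, one_mul]
    exact h n x hx

end Pool.Agent.K9h78.Brannan
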