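import Mathlib

/-!
# The integral inequality
-/

set_option autoImplicit false

namespace Pool.Agent.K9h78.Brannan

open Set MeasureTheory intervalIntegral

/-- `(1-t)² + 4 t κ²` -/
noncomputable def D (κ t : ℝ) : ℝ := (1 - t) ^ 2 + 4 * t * κ ^ 2

lemma D_pos {κ t : ℝ} (hκ : 0 < κ) (ht : 0 ≤ t) : 0 < D κ t := by
  unfold D
  rcases eq_or_ne t 1 with rfl | h
  · positivity
  · have : 0 < (1 - t) ^ 2 := by
      have : 1 - t ≠ 0 := fun h' => h (by linarith)
      positivity
    positivity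

lemma hasDerivAt_t (κ t : ℝ) : HasDerivAt (fun t => D κ t) (-2 * (1 - t) + 4 * κ ^ 2) t := by
  unfold D
  have h1 : HasDerivAt (fun t : ℝ => (1 - t) ^ 2) (2 * (1 - t) ^ 1 * (-1)) t := by
    have := ((hasDerivAt_id t).const_sub 1).fun_pow 2
    simpa using this
  have h2 : HasDerivAt (fun t : ℝ => 4 * t * κ ^ 2) (4 * 1 * κ ^ 2) t :=
    ((hasDerivAt_id t).const_mul 4).mul_const (κ ^ 2)
  refine (h1.add h2).congr_deriv ?_
  ring

lemma hasDerivAt_κ (κ t : ℝ) : HasDerivAt (fun κ => D κ t) (8 * t * κ) κ := by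
  unfold D
  have h1 : HasDerivAt (fun κ : ℝ => 4 * t * κ ^ 2) (4 * t * (2 * κ ^ 1 * 1)) κ := by
    have := ((hasDerivAt_id κ).pow 2).const_mul (4 * t)
    simpa using this
  refine (h1.const_add ((1 - t) ^ 2)).congr_deriv ?_
  ring

/-- Claim 1: the difference of the kernels as an integral. -/
lemma kernel_diff {c t : ℝ} (hc : 0 < c) (hc1 : c ≤ 1) (ht : 0 ≤ t) :
    1 / √(D c t) - 1 / √(D 1 t) = ∫ κ in c..1, 4 * κ * t / (D κ t * √(D κ t)) := by
  have hder : ∀ κ ∈ uIcc c 1, HasDerivAt (fun κ => -(1 / √(D κ t)))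
      (4 * κ * t / (D κ t * √(D κ t))) κ := by
    intro κ hκ
    rw [uIcc_of_le hc1] at hκ
    have hκ0 : 0 < κ := lt_of_lt_of_le hc hκ.1
    have hD := D_pos hκ0 ht
    have h1 := (hasDerivAt_κ κ t).sqrt hD.ne'
    have h2 := (h1.fun_inv (Real.sqrt_pos.mpr hD).ne').fun_neg
    have e : (fun κ => -(1 / √(D κ t))) = fun κ => -(√(D κ t))⁻¹ := by
      funext κ; rw [one_div]
    rw [e]
    refine h2.congr_deriv ?_
    have h3 : √(D κ t) ≠ 0 := (Real.sqrt_pos.mpr hD).ne'
    have h4 : √(D κ t) ^ 2 = D κ t := Real.sq_sqrt hD.le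
    rw [h4]
    field_simp
    ring
  have hcont : ContinuousOn (fun κ => 4 * κ * t / (D κ t * √(D κ t))) (uIcc c 1) := by
    rw [uIcc_of_le hc1]
    apply ContinuousOn.div
    · fun_prop
    · unfold D; fun_prop
    · intro κ hκ
      have hκ0 : 0 < κ := lt_of_lt_of_le hc hκ.1
      have hD := D_pos hκ0 ht
      exact (mul_pos hD (Real.sqrt_pos.mpr hD)).ne'
  rw [integral_eq_sub_of_hasDerivAt hder (hcont.intervalIntegrable)]
  ring

/-- weighted AM-GM -/
lemma amgm {a v : ℝ} (h0 : 0 < a) (h1 : a < 1) (hv : 0 ≤ v) : v ^ a ≤ (1 - a) + a * v := by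
  have := Real.geom_mean_le_arith_mean2_weighted (w₁ := 1 - a) (w₂ := a) (p₁ := 1) (p₂ := v)
    (by linarith) h0.le zero_le_one hv (by ring)
  simpa using this

/-- Claim 2: the inner integral. -/
lemma inner_bound {a p κ : ℝ} (h0 : 0 < a) (h1 : a < 1) (hp : 0 < p) (hκ : 0 < κ) :
    ∫ t in (0:ℝ)..1, (1 - t) ^ a * t ^ p * (4 * κ * t / (D κ t * √(D κ t))) ≤
      2 ^ a * κ ^ (a - 1) := by
  set g : ℝ → ℝ := fun t => 2 ^ a * κ ^ (a - 1) *
    ((1 - a) * (-(1 - t) / √(D κ t)) + a * (2 * κ * √t / √(D κ t))) with hg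
  have hDc : Continuous (fun t => D κ t) := by unfold D; fun_prop
  have hg01 : g 1 - g 0 = 2 ^ a * κ ^ (a - 1) := by
    have e1 : √(D κ 1) = 2 * κ := by
      unfold D
      rw [show (1 - 1 : ℝ) ^ 2 + 4 * 1 * κ ^ 2 = (2 * κ) ^ 2 by ring]
      exact Real.sqrt_sq (by positivity)
    have e2 : √(D κ 0) = 1 := by
      unfold D; simp
    simp only [hg, e1, e2, Real.sqrt_zero, Real.sqrt_one]
    field_simp
    ring
  rw [← hg01]
  apply integral_le_sub_of_hasDeriv_right_of_le (g' := fun t => 2 ^ a * κ ^ (a - 1) *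
    ((1 - a) * (2 * κ ^ 2 * (1 + t) / (D κ t * √(D κ t))) +
      a * (κ * (1 - t) * (1 + t) / (√t * (D κ t * √(D κ t)))))) zero_le_one
  · -- continuity
    have hne : ∀ t ∈ Icc (0:ℝ) 1, √(D κ t) ≠ 0 := fun t ht =>
      (Real.sqrt_pos.mpr (D_pos hκ ht.1)).ne'
    apply ContinuousOn.mul continuousOn_const
    apply ContinuousOn.add
    · apply ContinuousOn.mul continuousOn_const
      exact ContinuousOn.div (by fun_prop) (by fun_prop) hne
    · apply ContinuousOn.mul continuousOn_const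
      exact ContinuousOn.div (by fun_prop) (by fun_prop) hne
  · intro t ht
    have hD := D_pos hκ ht.1.le
    have hs : 0 < √(D κ t) := Real.sqrt_pos.mpr hD
    have hst : 0 < √t := Real.sqrt_pos.mpr ht.1
    have hD1 := (hasDerivAt_t κ t).sqrt hD.ne'
    have hF1 := (((hasDerivAt_id t).const_sub 1).fun_neg).fun_div hD1 hs.ne'
    have hF2 := (((hasDerivAt_id t).sqrt ht.1.ne').const_mul (2 * κ)).fun_div hD1 hs.ne'
    have hF := ((hF1.const_mul (1 - a)).fun_add (hF2.const_mul a)).const_mul (2 ^ a * κ ^ (a - 1))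
    refine HasDerivAt.hasDerivWithinAt (hF.congr_deriv ?_)
    have h4 : √(D κ t) ^ 2 = D κ t := Real.sq_sqrt hD.le
    have h5 : √t ^ 2 = t := Real.sq_sqrt ht.1.le
    simp only [id]
    rw [h4]
    have k1 : (-(-1) * √(D κ t) - -(1 - t) * ((-2 * (1 - t) + 4 * κ ^ 2) / (2 * √(D κ t)))) / D κ t =
        2 * κ ^ 2 * (1 + t) / (D κ t * √(D κ t)) := by
      field_simp
      rw [h4]
      unfold D
      ring
    have k2 : (2 * κ * (1 / (2 * √t)) * √(D κ t) - 2 * κ * √t * ((-2 * (1 - t) + 4 * κ ^ 2) / (2 * √(D κ t)))) / D κ t =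
        κ * (1 - t) * (1 + t) / (√t * (D κ t * √(D κ t))) := by
      field_simp
      rw [h4, h5]
      unfold D
      ring
    rw [k1, k2]
  · apply ContinuousOn.integrableOn_Icc
    apply ContinuousOn.mul
    · apply ContinuousOn.mul
      · exact (ContinuousOn.rpow_const (by fun_prop) (fun t ht => Or.inr h0.le))
      · exact (ContinuousOn.rpow_const (by fun_prop) (fun t ht => Or.inr hp.le))
    · apply ContinuousOn.div (by fun_prop) (by fun_prop)
      intro t ht
      have hD := D_pos hκ ht.1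
      exact (mul_pos hD (Real.sqrt_pos.mpr hD)).ne'
  · intro t ht
    have hD := D_pos hκ ht.1.le
    have hs : 0 < √(D κ t) := Real.sqrt_pos.mpr hD
    have hst : 0 < √t := Real.sqrt_pos.mpr ht.1
    have h5 : √t * √t = t := Real.mul_self_sqrt ht.1.le
    set E := D κ t * √(D κ t) with hE
    have hEpos : 0 < E := mul_pos hD hs
    have hst1 : √t ≤ 1 := by
      exact Real.sqrt_le_one.mpr ht.2.le
    -- AM-GM
    have hv : 0 ≤ (1 - t) / (2 * κ * √t) := div_nonneg (by linarith [ht.2]) (by positivity)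
    have h6 : (1 - t) ^ a ≤ (2 * κ * √t) ^ a * ((1 - a) + a * ((1 - t) / (2 * κ * √t))) := by
      have e : (1 - t) ^ a = (2 * κ * √t) ^ a * ((1 - t) / (2 * κ * √t)) ^ a := by
        rw [← Real.mul_rpow (by positivity) hv]
        congr 1
        field_simp
      rw [e]
      exact mul_le_mul_of_nonneg_left (amgm h0 h1 hv) (by positivity)
    have h7 : (2 * κ * √t) ^ a ≤ 2 ^ a * κ ^ a := by
      rw [← Real.mul_rpow (by norm_num) hκ.le]
      apply Real.rpow_le_rpow (by positivity) _ h0.le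
      nlinarith
    have h8 : t ^ p ≤ 1 := Real.rpow_le_one ht.1.le ht.2.le hp.le
    have h9 : 0 ≤ t ^ p := Real.rpow_nonneg ht.1.le p
    have h10 : 0 ≤ (1 - a) + a * ((1 - t) / (2 * κ * √t)) := by
      have := mul_nonneg h0.le hv
      linarith
    have h11 : (1 - t) ^ a * t ^ p ≤ 2 ^ a * κ ^ a * ((1 - a) + a * ((1 - t) / (2 * κ * √t))) := by
      have k1 : (1 - t) ^ a * t ^ p ≤ (1 - t) ^ a := by
        have : 0 ≤ (1 - t) ^ a := Real.rpow_nonneg (by linarith [ht.2]) a
        nlinarith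
      exact k1.trans (h6.trans (mul_le_mul_of_nonneg_right h7 h10))
    have h12 : κ ^ a = κ ^ (a - 1) * κ := by
      rw [← Real.rpow_add_one hκ.ne', sub_add_cancel]
    refine (mul_le_mul_of_nonneg_right h11 (by
      have := ht.1; positivity)).trans ?_
    rw [h12]
    have h13 : 2 ^ a * (κ ^ (a - 1) * κ) * (1 - a + a * ((1 - t) / (2 * κ * √t))) * (4 * κ * t / E) =
        2 ^ a * κ ^ (a - 1) * ((1 - a) * (2 * κ ^ 2 * (2 * t) / E) +
          a * (κ * (1 - t) * (2 * t) / (√t * E))) := by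
      field_simp
      ring
    rw [h13]
    apply mul_le_mul_of_nonneg_left _ (by positivity)
    have h14 : 2 * t ≤ 1 + t := by linarith [ht.2]
    apply add_le_add
    · apply mul_le_mul_of_nonneg_left _ (by linarith)
      gcongr
    · apply mul_le_mul_of_nonneg_left _ h0.le
      have : 0 ≤ 1 - t := by linarith [ht.2]
      gcongr

/-- The weight. -/
noncomputable def w (a p t : ℝ) : ℝ := (1 - t) ^ a * t ^ p

/-- Claim 3. -/
lemma main_integral {a p c : ℝ} (h0 : 0 < a) (h1 : a < 1) (hp : 0 < p) (hc : 0 < c) (hc1 : c ≤ 1) :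
    ∫ t in (0:ℝ)..1, w a p t * (1 / √(D c t) - 1 / √(D 1 t)) ≤ 2 ^ a * (1 - c ^ a) / a := by
  have e1 : ∫ t in (0:ℝ)..1, w a p t * (1 / √(D c t) - 1 / √(D 1 t)) =
      ∫ t in (0:ℝ)..1, ∫ κ in c..1, w a p t * (4 * κ * t / (D κ t * √(D κ t))) := by
    apply integral_congr
    intro t ht
    rw [uIcc_of_le zero_le_one] at ht
    simp only
    rw [kernel_diff hc hc1 ht.1, intervalIntegral.integral_const_mul]
  have hcont : ContinuousOn (fun q : ℝ × ℝ => w a p q.1 * (4 * q.2 * q.1 / (D q.2 q.1 * √(D q.2 q.1))))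
      (Icc 0 1 ×ˢ Icc c 1) := by
    apply ContinuousOn.mul
    · unfold w
      apply ContinuousOn.mul
      · exact (ContinuousOn.rpow_const (by fun_prop) (fun t ht => Or.inr h0.le))
      · exact (ContinuousOn.rpow_const (by fun_prop) (fun t ht => Or.inr hp.le))
    · apply ContinuousOn.div (by fun_prop) (by unfold D; fun_prop)
      intro q hq
      have hD := D_pos (lt_of_lt_of_le hc hq.2.1) hq.1.1
      exact (mul_pos hD (Real.sqrt_pos.mpr hD)).ne'
  rw [e1, intervalIntegral_intervalIntegral_swap]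
  · have h3 : ∫ κ in c..1, (2 ^ a * κ ^ (a - 1)) = 2 ^ a * (1 - c ^ a) / a := by
      rw [intervalIntegral.integral_const_mul, integral_rpow (Or.inl (by linarith))]
      rw [sub_add_cancel, Real.one_rpow]
      ring
    rw [← h3]
    apply intervalIntegral.integral_mono_on hc1
    · rw [intervalIntegrable_iff_integrableOn_Ioc_of_le hc1]
      have h4 : Integrable (fun q : ℝ × ℝ => w a p q.1 * (4 * q.2 * q.1 / (D q.2 q.1 * √(D q.2 q.1))))
          ((volume.restrict (Ioc 0 1)).prod (volume.restrict (Ioc c 1))) := by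
        rw [Measure.prod_restrict]
        apply IntegrableOn.mono_set _ (prod_mono Ioc_subset_Icc_self Ioc_subset_Icc_self)
        exact hcont.integrableOn_compact (isCompact_Icc.prod isCompact_Icc)
      have h5 := h4.integral_prod_right
      simp only [intervalIntegral.integral_of_le zero_le_one]
      exact h5
    · apply ContinuousOn.intervalIntegrable
      rw [uIcc_of_le hc1]
      apply ContinuousOn.mul continuousOn_const
      apply ContinuousOn.rpow_const continuousOn_id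
      intro κ hκ
      exact Or.inl (lt_of_lt_of_le hc hκ.1).ne'
    · intro κ hκ
      exact inner_bound h0 h1 hp (lt_of_lt_of_le hc hκ.1)
  · rw [uIoc_of_le zero_le_one, uIoc_of_le hc1]
    apply IntegrableOn.mono_set _ (prod_mono Ioc_subset_Icc_self Ioc_subset_Icc_self)
    exact hcont.integrableOn_compact (isCompact_Icc.prod isCompact_Icc)

end Pool.Agent.K9h78.Brannan
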