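import Pool.Agent.K9h78.Brannan.Basic

/-!
# The case `1 ≤ α < 2`
-/

set_option autoImplicit false

namespace Pool.Agent.K9h78.Brannan

open Finset

section coef

variable {a : ℝ}

lemma sign_a (h0 : 0 ≤ a) (h1 : a < 1) (k : ℕ) : 0 ≤ (-1) ^ k * b a (k + 1) := by
  induction k with
  | zero => simp [b_one, h0]
  | succ k ih =>
    rw [b_succ a (k + 1)]
    push_cast
    have h2 : (0 : ℝ) ≤ (k + 1 - a) / (k + 1 + 1) := by
      apply div_nonneg <;> [skip; positivity]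
      have : (0 : ℝ) ≤ k := by positivity
      linarith
    have : (-1 : ℝ) ^ (k + 1) * (b a (k + 1) * (a - (k + 1)) / (k + 1 + 1)) =
        ((-1) ^ k * b a (k + 1)) * ((k + 1 - a) / (k + 1 + 1)) := by
      rw [pow_succ]; ring
    rw [this]
    positivity

lemma abs_a (h0 : 0 ≤ a) (h1 : a < 1) (k : ℕ) : |b a (k + 1)| = (-1) ^ k * b a (k + 1) := by
  have h := sign_a h0 h1 k
  rcases neg_one_pow_eq_or ℝ k with e | e
  · rw [e, one_mul] at h ⊢
    exact abs_of_nonneg h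
  · rw [e] at h ⊢
    rw [abs_of_nonpos (by linarith)]
    ring

lemma abs_succ_le (h0 : 0 ≤ a) (h1 : a < 1) (k : ℕ) : |b a (k + 2)| ≤ |b a (k + 1)| := by
  rw [b_succ a (k + 1), abs_div, abs_mul]
  push_cast
  have hk : (0 : ℝ) ≤ k := by positivity
  have h2 : |a - (k + 1)| ≤ k + 1 + 1 := by
    rw [abs_le]; constructor <;> linarith
  have h3 : |(k : ℝ) + 1 + 1| = k + 1 + 1 := abs_of_nonneg (by positivity)
  rw [h3, div_le_iff₀ (by positivity)]
  exact mul_le_mul_of_nonneg_left h2 (abs_nonneg _)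

lemma abs_alpha (h0 : 0 ≤ a) (h1 : a < 1) (k : ℕ) :
    |b (a + 1) (k + 2)| = |b a (k + 1)| - |b a (k + 2)| := by
  rw [b_pascal a (k + 1), abs_a h0 h1 k, abs_a h0 h1 (k + 1)]
  have e : b a (k + 1 + 1) + b a (k + 1) =
      (-1) ^ k * ((-1) ^ k * b a (k + 1) - (-1) ^ (k + 1) * b a (k + 1 + 1)) := by
    have : ((-1 : ℝ) ^ k) * (-1) ^ k = 1 := by
      rw [← pow_add, ← two_mul, pow_mul]; simp
    rw [pow_succ]
    linear_combination (-(b a (k + 1) + b a (k + 1 + 1))) * this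
  rw [e, abs_mul, abs_pow, abs_neg, abs_one, one_pow, one_mul]
  apply abs_of_nonneg
  have := abs_succ_le h0 h1 k
  rw [abs_a h0 h1 k, abs_a h0 h1 (k + 1)] at this
  linarith

lemma abs_b_le (h0 : 0 ≤ a) (h1 : a < 1) (k : ℕ) : |b a (k + 2)| ≤ a * (1 - a) / (k + 2) := by
  induction k with
  | zero =>
    rw [b_two]
    rw [abs_of_nonpos (by nlinarith)]
    norm_num
    linarith
  | succ k ih =>
    rw [b_succ a (k + 2), abs_div, abs_mul]
    push_cast
    have hk : (0 : ℝ) ≤ k := by positivity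
    have h2 : |a - (k + 2)| ≤ k + 2 := by
      rw [abs_le]; constructor <;> linarith
    have h3 : |(k : ℝ) + 2 + 1| = k + 2 + 1 := abs_of_nonneg (by positivity)
    rw [h3]
    have h4 : |b a (k + 2)| * |a - (k + 2)| ≤ a * (1 - a) / (k + 2) * (k + 2) :=
      mul_le_mul ih h2 (abs_nonneg _) (le_trans (abs_nonneg _) ih)
    have h5 : a * (1 - a) / (k + 2) * (k + 2) = a * (1 - a) := by field_simp
    rw [h5] at h4
    rw [show (k : ℝ) + 1 + 2 = k + 2 + 1 by ring]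
    gcongr

lemma abs_b_le' (h0 : 0 ≤ a) (h1 : a < 1) (k : ℕ) : |b a (k + 2)| ≤ 1 / (4 * (k + 2)) := by
  refine (abs_b_le h0 h1 k).trans ?_
  rw [div_le_div_iff₀ (by positivity) (by positivity)]
  have hk : (0 : ℝ) ≤ k := by positivity
  nlinarith [mul_nonneg hk (sq_nonneg (a - 1/2)), sq_nonneg (a - 1/2)]

lemma neg_sign (h1 : a < 1) (n : ℕ) : 0 ≤ (-1) ^ n * b (a - 1) n := by
  induction n with
  | zero => simp [b_zero]
  | succ n ih =>
    rw [b_succ]
    have hk : (0 : ℝ) ≤ n := by positivity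
    have h2 : (0 : ℝ) ≤ (n + (1 - a)) / (n + 1) := by
      apply div_nonneg <;> [skip; positivity]
      linarith
    have : (-1 : ℝ) ^ (n + 1) * (b (a - 1) n * (a - 1 - n) / (n + 1)) =
        ((-1) ^ n * b (a - 1) n) * ((n + (1 - a)) / (n + 1)) := by
      rw [pow_succ]; ring
    rw [this]
    positivity

lemma sum_abs_eq (h0 : 0 ≤ a) (h1 : a < 1) (n : ℕ) :
    ∑ k ∈ range (n + 1), |b a k| = 2 - (-1) ^ n * b (a - 1) n := by
  induction n with
  | zero => simp [b_zero]; norm_num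
  | succ n ih =>
    rw [sum_range_succ, ih, abs_a h0 h1 n]
    have := b_pascal (a - 1) n
    rw [sub_add_cancel] at this
    rw [this, pow_succ]
    ring

lemma sum_abs_le (h0 : 0 ≤ a) (h1 : a < 1) (n : ℕ) : ∑ k ∈ range (n + 1), |b a k| ≤ 2 := by
  rw [sum_abs_eq h0 h1]
  have := neg_sign h1 n
  linarith

lemma A_dist (h0 : 0 ≤ a) (h1 : a < 1) (n : ℕ) (x : ℂ) (hx : ‖x‖ = 1) :
    ‖A (a + 1) (n + 1) x - (1 + ((a : ℂ) + 1) * x)‖ ≤ a - |b a (n + 1)| := by
  induction n with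
  | zero => simp [A, sum_range_succ, b_zero, b_one, abs_of_nonneg h0]
  | succ n ih =>
    rw [A_succ]
    have e : A (a + 1) (n + 1) x + (b (a + 1) (n + 1 + 1) : ℂ) * x ^ (n + 1 + 1) -
        (1 + ((a : ℂ) + 1) * x) = (A (a + 1) (n + 1) x - (1 + ((a : ℂ) + 1) * x)) +
        (b (a + 1) (n + 1 + 1) : ℂ) * x ^ (n + 1 + 1) := by ring
    rw [e]
    refine (norm_add_le _ _).trans ?_
    rw [norm_mul, norm_pow, hx, one_pow, mul_one, Complex.norm_real, Real.norm_eq_abs,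
      abs_alpha h0 h1 n]
    linarith

lemma B_dist (h0 : 0 ≤ a) (h1 : a < 1) (n : ℕ) (x : ℂ) (hx : ‖x‖ = 1) :
    ‖(1 + x) * A a (n + 1) x - (1 + ((a : ℂ) + 1) * x)‖ ≤ a := by
  rw [A_factor']
  have e : A (a + 1) (n + 1) x + (b a (n + 1) : ℂ) * x ^ (n + 1 + 1) -
        (1 + ((a : ℂ) + 1) * x) = (A (a + 1) (n + 1) x - (1 + ((a : ℂ) + 1) * x)) +
        (b a (n + 1) : ℂ) * x ^ (n + 1 + 1) := by ring
  rw [e]
  refine (norm_add_le _ _).trans ?_
  rw [norm_mul, norm_pow, hx, one_pow, mul_one, Complex.norm_real, Real.norm_eq_abs]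
  have := A_dist h0 h1 n x hx
  linarith

lemma V_lower (h0 : 0 ≤ a) (h1 : a < 1) (j : ℕ) :
    1 + a - |b a 2| + |b a (2 * j + 2)| ≤ V a (2 * j + 1) ∧
      1 + a - |b a 2| ≤ V a (2 * j + 2) := by
  have key : ∀ j : ℕ, 1 + a - |b a 2| + |b a (2 * j + 2)| ≤ V a (2 * j + 1) →
      1 + a - |b a 2| ≤ V a (2 * j + 2) := by
    intro j hj
    have h := V_succ a (2 * j + 1)
    have h3 := neg_abs_le (b a (2 * j + 1 + 1))
    have e : (2 * j + 1 + 1) = 2 * j + 2 := rfl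
    rw [e] at h h3
    linarith
  induction j with
  | zero =>
    refine ⟨?_, key 0 ?_⟩ <;> simp [V, sum_range_succ, b_zero, b_one]
  | succ j ih =>
    have h2 := ih.1
    have h3 : 1 + a - |b a 2| + |b a (2 * (j + 1) + 2)| ≤ V a (2 * (j + 1) + 1) := by
      have e1 := V_succ a (2 * j + 1)
      have e2 := V_succ a (2 * j + 2)
      have e3 := abs_a h0 h1 (2 * j + 2)
      have e4 := neg_abs_le (b a (2 * j + 1 + 1))
      have e5 := abs_succ_le h0 h1 (2 * j + 2)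
      have e6 : ((-1 : ℝ)) ^ (2 * j + 2) = 1 := by
        rw [show 2 * j + 2 = 2 * (j + 1) by ring, pow_mul]; simp
      rw [e6, one_mul] at e3
      have r1 : 2 * (j + 1) + 1 = 2 * j + 2 + 1 := by ring
      have r2 : 2 * (j + 1) + 2 = 2 * j + 2 + 2 := by ring
      have r3 : 2 * j + 1 + 1 = 2 * j + 2 := rfl
      rw [r1, r2]
      rw [r3] at e1 e4
      linarith
    exact ⟨h3, key _ h3⟩

lemma V_lower' (h0 : 0 ≤ a) (h1 : a < 1) (n : ℕ) : 1 + a - |b a 2| ≤ V a (n + 1) := by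
  rcases Nat.even_or_odd' n with ⟨j, rfl | rfl⟩
  · have := (V_lower h0 h1 j).1
    have h2 := abs_nonneg (b a (2 * j + 2))
    linarith
  · exact (V_lower h0 h1 j).2

lemma V_factor (α : ℝ) (n : ℕ) : V (α + 1) (n + 1) = 2 * V α n + b α (n + 1) := by
  rw [V_pascal, V_succ]; ring

lemma V_big (h0 : 0 ≤ a) (h1 : a < 1) (n : ℕ) :
    2 + a / 2 + 3 / 2 * a ^ 2 ≤ V (a + 1) (n + 2) := by
  rw [V_factor]
  have h2 := V_lower' h0 h1 n
  have h3 : |b a (n + 1 + 1)| ≤ |b a 2| := by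
    induction n with
    | zero => exact le_rfl
    | succ n ih => exact (abs_succ_le h0 h1 (n + 1)).trans (ih (V_lower' h0 h1 n))
  have h4 := neg_abs_le (b a (n + 1 + 1))
  have h5 := abs_b_le h0 h1 0
  norm_num at h5
  linarith

end coef

section geometry

lemma abs_sin_nat_mul (j : ℕ) (θ : ℝ) : |Real.sin (j * θ)| ≤ j * |Real.sin θ| := by
  induction j with
  | zero => simp
  | succ j ih =>
    have e : ((j + 1 : ℕ) : ℝ) * θ = j * θ + θ := by push_cast; ring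
    rw [e, Real.sin_add]
    refine (abs_add_le _ _).trans ?_
    rw [abs_mul, abs_mul]
    have h1 := Real.abs_cos_le_one θ
    have h2 := Real.abs_cos_le_one (j * θ)
    have h3 := abs_nonneg (Real.sin θ)
    have h4 := abs_nonneg (Real.sin (j * θ))
    push_cast
    nlinarith

end geometry

/-- Case `Re x ≤ 0`. -/
lemma left_case {a : ℝ} (h0 : 0 ≤ a) (h1 : a < 1) (n : ℕ) (x : ℂ) (hx : ‖x‖ = 1)
    (hre : x.re ≤ 0) : ‖A (a + 1) (n + 2) x‖ ≤ V (a + 1) (n + 2) := by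
  have h2 := A_dist h0 h1 (n + 1) x hx
  have h3 : ‖A (a + 1) (n + 2) x‖ ≤ ‖1 + ((a : ℂ) + 1) * x‖ + a := by
    have e : A (a + 1) (n + 2) x = (A (a + 1) (n + 1 + 1) x - (1 + ((a : ℂ) + 1) * x)) +
        (1 + ((a : ℂ) + 1) * x) := by ring
    rw [e]
    refine (norm_add_le _ _).trans ?_
    have := abs_nonneg (b a (n + 1 + 1))
    linarith
  have h4 : ‖1 + ((a : ℂ) + 1) * x‖ ^ 2 ≤ 1 + (1 + a) ^ 2 := by
    have hx2 : x.re ^ 2 + x.im ^ 2 = 1 := by
      have : ‖x‖ ^ 2 = 1 := by rw [hx]; norm_num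
      rw [← Complex.normSq_eq_norm_sq, Complex.normSq_apply] at this
      linarith
    rw [← Complex.normSq_eq_norm_sq, Complex.normSq_apply]
    simp
    nlinarith
  have h5 : ‖1 + ((a : ℂ) + 1) * x‖ ≤ 2 - a / 2 + 3 / 2 * a ^ 2 := by
    apply le_of_sq_le_sq _ (by nlinarith)
    refine h4.trans ?_
    nlinarith [sq_nonneg (a - 1/3), sq_nonneg (a ^ 2 - a / 3), mul_nonneg h0 (sub_nonneg.mpr h1.le)]
  have h6 := V_big h0 h1 n
  linarith

end Pool.Agent.K9h78.Brannan
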