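import Pool.Agent.K9h78.Brannan.Right
import Pool.Agent.K9h78.Brannan.Integral

/-!
# The integral representation of the binomial coefficients
-/

set_option autoImplicit false

namespace Pool.Agent.K9h78.Brannan

open Set MeasureTheory intervalIntegral

/-- Beta integrals -/
noncomputable def β (a p : ℝ) : ℝ := ∫ t in (0:ℝ)..1, w a p t

lemma w_cont {a p : ℝ} (h0 : 0 < a) (hp : 0 < p) : Continuous (w a p) := by
  unfold w
  exact ((continuous_const.sub continuous_id).rpow_const (fun t => Or.inr h0.le)).mul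
    (continuous_id.rpow_const (fun t => Or.inr hp.le))

lemma w_nonneg {a p t : ℝ} (ht0 : 0 ≤ t) (ht1 : t ≤ 1) : 0 ≤ w a p t := by
  unfold w
  exact mul_nonneg (Real.rpow_nonneg (by linarith) _) (Real.rpow_nonneg ht0 _)

lemma beta_rec {a p : ℝ} (h0 : 0 < a) (hp : 0 < p) :
    (p + 1) * β a p = (p + a + 2) * β a (p + 1) := by
  have h : ∫ t in (0:ℝ)..1, ((p + 1) * w a p t - (p + a + 2) * w a (p + 1) t) =
      (fun t : ℝ => t ^ (p + 1) * (1 - t) ^ (a + 1)) 1 - (fun t : ℝ => t ^ (p + 1) * (1 - t) ^ (a + 1)) 0 := by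
    apply integral_eq_sub_of_hasDerivAt_of_le (f := fun t : ℝ => t ^ (p + 1) * (1 - t) ^ (a + 1))
      (f' := fun t => (p + 1) * w a p t - (p + a + 2) * w a (p + 1) t) zero_le_one
    · apply ContinuousOn.mul
      · exact ContinuousOn.rpow_const (by fun_prop) (fun t ht => Or.inr (by linarith))
      · exact ContinuousOn.rpow_const (by fun_prop) (fun t ht => Or.inr (by linarith))
    · intro t ht
      have h1 : HasDerivAt (fun t : ℝ => t ^ (p + 1)) ((p + 1) * t ^ p) t := by
        have := Real.hasDerivAt_rpow_const (x := t) (p := p + 1) (Or.inl ht.1.ne')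
        rwa [add_sub_cancel_right] at this
      have h2 : HasDerivAt (fun t : ℝ => (1 - t) ^ (a + 1)) (-((a + 1) * (1 - t) ^ a)) t := by
        have h3 : HasDerivAt (fun t : ℝ => 1 - t) (-1) t := (hasDerivAt_id t).const_sub 1
        have := h3.rpow_const (p := a + 1) (Or.inl (by linarith [ht.2]))
        rw [add_sub_cancel_right] at this
        refine this.congr_deriv ?_
        ring
      refine (h1.mul h2).congr_deriv ?_
      have e1 : t ^ (p + 1) = t ^ p * t := Real.rpow_add_one ht.1.ne' p
      have e2 : (1 - t) ^ (a + 1) = (1 - t) ^ a * (1 - t) :=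
        Real.rpow_add_one (by linarith [ht.2]) a
      unfold w
      rw [e1, e2]
      ring
    · apply Continuous.intervalIntegrable
      exact (continuous_const.mul (w_cont h0 hp)).sub (continuous_const.mul (w_cont h0 (by linarith)))
  rw [intervalIntegral.integral_sub, intervalIntegral.integral_const_mul,
    intervalIntegral.integral_const_mul] at h
  · simp only [Real.one_rpow, sub_self, sub_zero] at h
    rw [Real.zero_rpow (by linarith), Real.zero_rpow (by linarith)] at h
    unfold β
    linarith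
  · exact (continuous_const.mul (w_cont h0 hp)).intervalIntegrable _ _
  · exact (continuous_const.mul (w_cont h0 (by linarith))).intervalIntegrable _ _

lemma beta_lower {a : ℝ} (h0 : 0 < a) (h1 : a < 1) : (1 - a) / 2 ≤ β a (1 - a) := by
  set g : ℝ → ℝ := fun t => t ^ 2 / 2 + a / 2 *
    (-(1 + t) * ((1 - t) * Real.log (1 - t)) - t * (t * Real.log t) - t) with hg
  have hg01 : g 1 - g 0 = (1 - a) / 2 := by
    simp [hg]; ring
  rw [← hg01]
  unfold β
  apply sub_le_integral_of_hasDeriv_right_of_le (g' := fun t =>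
    t + a * t * (Real.log (1 - t) - Real.log t)) zero_le_one
  · have c1 : Continuous (fun t : ℝ => (1 - t) * Real.log (1 - t)) :=
      Real.continuous_mul_log.comp (continuous_const.sub continuous_id)
    have c2 := Real.continuous_mul_log
    apply Continuous.continuousOn
    exact ((continuous_id.pow 2).div_const 2).add (continuous_const.mul
      ((((continuous_const.add continuous_id).neg.mul c1).sub (continuous_id.mul c2)).sub
        continuous_id))
  · intro t ht
    have ht1 : 1 - t ≠ 0 := by linarith [ht.2]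
    have h3 : HasDerivAt (fun t : ℝ => 1 - t) (-1) t := (hasDerivAt_id t).const_sub 1
    have hl1 := h3.log ht1
    have hl2 := Real.hasDerivAt_log ht.1.ne'
    have k1 := ((hasDerivAt_id t).const_add 1).fun_neg.fun_mul (h3.fun_mul hl1)
    have k2 := (hasDerivAt_id t).fun_mul ((hasDerivAt_id t).fun_mul hl2)
    have k3 := ((k1.fun_sub k2).fun_sub (hasDerivAt_id t)).const_mul (a / 2)
    have k4 := ((((hasDerivAt_id t).fun_pow 2).div_const 2).fun_add k3)
    apply HasDerivAt.hasDerivWithinAt
    refine k4.congr_deriv ?_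
    simp only [id]
    have := ht.1.ne'
    field_simp
    ring
  · exact (w_cont h0 (by linarith)).continuousOn.integrableOn_Icc
  · intro t ht
    have h2 : 0 < 1 - t := by linarith [ht.2]
    have h3 : 0 < (1 - t) / t := div_pos h2 ht.1
    have h4 : w a (1 - a) t = t * ((1 - t) / t) ^ a := by
      unfold w
      rw [Real.div_rpow h2.le ht.1.le, Real.rpow_sub ht.1, Real.rpow_one]
      field_simp
    rw [h4, Real.rpow_def_of_pos h3]
    have h5 := Real.add_one_le_exp (Real.log ((1 - t) / t) * a)
    rw [Real.log_div h2.ne' ht.1.ne'] at h5 ⊢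
    nlinarith [ht.1, mul_le_mul_of_nonneg_left h5 ht.1.le]

/-- normalising constant -/
noncomputable def s (a : ℝ) : ℝ := |b a 2| / β a (1 - a)

lemma beta_pos {a : ℝ} (h0 : 0 < a) (h1 : a < 1) : 0 < β a (1 - a) :=
  lt_of_lt_of_le (by linarith) (beta_lower h0 h1)

lemma s_nonneg {a : ℝ} (h0 : 0 < a) (h1 : a < 1) : 0 ≤ s a :=
  div_nonneg (abs_nonneg _) (beta_pos h0 h1).le

lemma s_le {a : ℝ} (h0 : 0 < a) (h1 : a < 1) : s a ≤ a := by
  unfold s
  rw [div_le_iff₀ (beta_pos h0 h1)]
  have h2 := abs_b_le h0.le h1 0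
  have h3 := beta_lower h0 h1
  norm_num at h2
  nlinarith

lemma b_eq {a : ℝ} (h0 : 0 < a) (h1 : a < 1) (k : ℕ) : |b a (k + 2)| = s a * β a (k + 1 - a) := by
  induction k with
  | zero =>
    have := (beta_pos h0 h1).ne'
    unfold s
    norm_num
    field_simp
  | succ k ih =>
    have h2 := beta_rec (a := a) (p := k + 1 - a) h0 (by
      have : (0:ℝ) ≤ k := by positivity
      linarith)
    have h3 : |b a (k + 1 + 2)| = |b a (k + 2)| * ((k + 2 - a) / (k + 3)) := by
      rw [show k + 1 + 2 = k + 2 + 1 from rfl, b_succ a (k + 2), abs_div, abs_mul]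
      push_cast
      have hk : (0 : ℝ) ≤ k := by positivity
      have e1 : |a - (k + 2)| = k + 2 - a := by
        rw [abs_of_nonpos (by linarith)]; ring
      have e2 : |(k : ℝ) + 2 + 1| = k + 3 := by
        rw [abs_of_nonneg (by positivity)]; ring
      rw [e1, e2]
      ring
    rw [h3, ih]
    have h4 : β a (((k + 1 : ℕ) : ℝ) + 1 - a) = β a (k + 1 - a) * ((k + 2 - a) / (k + 3)) := by
      rw [show ((k + 1 : ℕ) : ℝ) + 1 - a = k + 1 - a + 1 by push_cast; ring]
      have hk : (k : ℝ) + 3 ≠ 0 := by positivity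
      field_simp
      have e3 : (k : ℝ) + 1 - a + 1 = k + 2 - a := by ring
      have e4 : (k : ℝ) + 1 - a + a + 2 = k + 3 := by ring
      rw [e3, e4] at h2
      rw [e3]
      linarith
    rw [h4]
    ring

lemma summable_abs {a : ℝ} (h0 : 0 < a) (h1 : a < 1) : Summable (fun k => |b a k|) := by
  apply summable_of_sum_range_le (c := 2) (fun _ => abs_nonneg _)
  intro n
  cases n with
  | zero => simp
  | succ n => exact sum_abs_le h0.le h1 n

/-- The tail sums as integrals. -/
lemma hasSum_tail {a : ℝ} (h0 : 0 < a) (h1 : a < 1) (m : ℕ) (hm : 1 ≤ m) (z : ℂ) (hz : ‖z‖ ≤ 1) :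
    HasSum (fun j : ℕ => ((|b a (m + 1 + j)| : ℝ) : ℂ) * z ^ j)
      (s a * ∫ t in (0:ℝ)..1, (w a (m - a) t : ℂ) / (1 - t * z)) := by
  have hm' : (1:ℝ) ≤ m := by exact_mod_cast hm
  obtain ⟨m', rfl⟩ := Nat.exists_eq_add_of_le hm
  rcases eq_or_ne (s a) 0 with hs | hs
  · have : ∀ j : ℕ, |b a (1 + m' + 1 + j)| = 0 := by
      intro j
      rw [show 1 + m' + 1 + j = (m' + j) + 2 by ring, b_eq h0 h1, hs, zero_mul]
    simp only [this, hs]
    simp
  set F : ℕ → ℝ → ℂ := fun j t => (w a ((m' + j : ℕ) + 1 - a) t : ℂ) * z ^ j with hF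
  have hFint : ∀ j, Integrable (F j) (volume.restrict (Ioc 0 1)) := by
    intro j
    have : Continuous (F j) := by
      have h3 : Continuous (w a ((m' + j : ℕ) + 1 - a)) := w_cont h0 (by
        have : (0:ℝ) ≤ ((m' + j : ℕ) : ℝ) := by positivity
        linarith)
      exact (Complex.continuous_ofReal.comp h3).mul continuous_const
    exact (this.continuousOn.integrableOn_Icc (a := 0) (b := 1)).mono_set Ioc_subset_Icc_self
  have hnorm : ∀ j, ∫ t in Ioc 0 1, ‖F j t‖ = ‖z‖ ^ j * β a ((m' + j : ℕ) + 1 - a) := by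
    intro j
    unfold β
    rw [intervalIntegral.integral_of_le zero_le_one, ← MeasureTheory.integral_const_mul]
    apply setIntegral_congr_fun measurableSet_Ioc
    intro t ht
    simp only [hF]
    rw [norm_mul, norm_pow, Complex.norm_real, Real.norm_eq_abs, abs_of_nonneg (w_nonneg ht.1.le ht.2)]
    ring
  have hsum : Summable (fun j => ∫ t in Ioc 0 1, ‖F j t‖) := by
    have h3 : Summable (fun j => (s a)⁻¹ * |b a (m' + j + 2)|) := by
      apply Summable.mul_left
      have := (summable_abs h0 h1).comp_injective (i := fun j => m' + j + 2) (by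
        intro i j hij
        simp only at hij
        omega)
      exact this
    apply Summable.of_nonneg_of_le _ _ h3
    · intro j
      exact integral_nonneg (fun t => norm_nonneg _)
    · intro j
      rw [hnorm, b_eq h0 h1 (m' + j), inv_mul_cancel_left₀ hs]
      have h4 : 0 ≤ β a ((m' + j : ℕ) + 1 - a) := by
        unfold β
        apply intervalIntegral.integral_nonneg zero_le_one
        intro t ht
        exact w_nonneg ht.1 ht.2
      have h5 : ‖z‖ ^ j ≤ 1 := pow_le_one₀ (norm_nonneg _) hz
      nlinarith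
  have key := hasSum_integral_of_summable_integral_norm hFint hsum
  have e1 : ∫ t in Ioc (0:ℝ) 1, (∑' j, F j t) =
      ∫ t in (0:ℝ)..1, (w a ((1 + m' : ℕ) - a) t : ℂ) / (1 - t * z) := by
    rw [intervalIntegral.integral_of_le zero_le_one]
    apply setIntegral_congr_fun measurableSet_Ioc
    intro t ht
    simp only
    have e2 : ∀ j, F j t = (w a ((1 + m' : ℕ) - a) t : ℂ) * ((t : ℂ) * z) ^ j := by
      intro j
      simp only [hF]
      have e3 : w a ((m' + j : ℕ) + 1 - a) t = w a ((1 + m' : ℕ) - a) t * t ^ j := by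
        unfold w
        have e4 : ((m' + j : ℕ) : ℝ) + 1 - a = ((1 + m' : ℕ) - a) + (j : ℕ) := by
          push_cast; ring
        rw [e4, Real.rpow_add ht.1, Real.rpow_natCast]
        ring
      rw [e3, mul_pow]
      push_cast
      ring
    simp only [e2]
    rw [tsum_mul_left]
    rcases eq_or_lt_of_le ht.2 with h | h
    · have : w a ((1 + m' : ℕ) - a) t = 0 := by
        unfold w
        rw [h, sub_self, Real.zero_rpow h0.ne', zero_mul]
      rw [this]
      simp
    · have h6 : ‖(t : ℂ) * z‖ < 1 := by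
        rw [norm_mul, Complex.norm_real, Real.norm_eq_abs, abs_of_pos ht.1]
        have h7 : t * ‖z‖ ≤ t * 1 := mul_le_mul_of_nonneg_left hz ht.1.le
        linarith
      rw [tsum_geometric_of_norm_lt_one h6, div_eq_mul_inv]
  rw [e1] at key
  have key2 := key.mul_left (s a : ℂ)
  have e5 : (fun j : ℕ => ((|b a (1 + m' + 1 + j)| : ℝ) : ℂ) * z ^ j) =
      fun j => (s a : ℂ) * ∫ t in Ioc 0 1, F j t := by
    funext j
    rw [show 1 + m' + 1 + j = (m' + j) + 2 by ring, b_eq h0 h1]
    have e6 : ∫ t in Ioc 0 1, F j t = (β a ((m' + j : ℕ) + 1 - a) : ℂ) * z ^ j := by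
      simp only [hF]
      rw [MeasureTheory.integral_mul_const]
      unfold β
      rw [intervalIntegral.integral_of_le zero_le_one, integral_complex_ofReal]
    rw [e6]
    push_cast
    ring
  rw [e5]
  exact key2

end Pool.Agent.K9h78.Brannan
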