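import Pool.Agent.K9h78.Brannan.Middle

/-!
# The case `1 ≤ α < 2`, right half of the circle
-/

set_option autoImplicit false

namespace Pool.Agent.K9h78.Brannan

open Finset Complex

/-- the point `e^{iθ}` -/
noncomputable def pt (θ : ℝ) : ℂ := Complex.exp (θ * I)

lemma pt_re (θ : ℝ) : (pt θ).re = Real.cos θ := Complex.exp_ofReal_mul_I_re θ
lemma pt_im (θ : ℝ) : (pt θ).im = Real.sin θ := Complex.exp_ofReal_mul_I_im θ
lemma pt_norm (θ : ℝ) : ‖pt θ‖ = 1 := Complex.norm_exp_ofReal_mul_I θ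

lemma pt_pow (θ : ℝ) (k : ℕ) : pt θ ^ k = pt (k * θ) := by
  unfold pt
  rw [← Complex.exp_nat_mul]
  congr 1
  push_cast
  ring

lemma hasDerivAt_pt (θ : ℝ) : HasDerivAt pt (I * pt θ) θ := by
  have h1 : HasDerivAt (fun t : ℝ => (t : ℂ) * I) I θ := by
    simpa using (Complex.ofRealCLM.hasDerivAt (x := θ)).mul_const I
  have h2 := h1.cexp
  unfold pt
  rw [mul_comm]
  exact h2

lemma hasDerivAt_A (α : ℝ) (n : ℕ) (θ : ℝ) :
    HasDerivAt (fun t : ℝ => A (α + 1) (n + 1) (pt t))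
      (((α : ℂ) + 1) * I * pt θ * A α n (pt θ)) θ := by
  induction n with
  | zero =>
    have e : (fun t : ℝ => A (α + 1) (0 + 1) (pt t)) = fun t => 1 + ((α : ℂ) + 1) * pt t := by
      funext t
      simp [A, sum_range_succ, b_zero, b_one]
    rw [e]
    have := ((hasDerivAt_pt θ).const_mul ((α : ℂ) + 1)).const_add 1
    refine this.congr_deriv ?_
    rw [A_zero]; ring
  | succ n ih =>
    have e : (fun t : ℝ => A (α + 1) (n + 1 + 1) (pt t)) =
        fun t => A (α + 1) (n + 1) (pt t) + (b (α + 1) (n + 1 + 1) : ℂ) * pt t ^ (n + 1 + 1) := by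
      funext t
      rw [A_succ]
    rw [e]
    have h2 := ((hasDerivAt_pt θ).pow (n + 1 + 1)).const_mul (b (α + 1) (n + 1 + 1) : ℂ)
    have := ih.add h2
    refine this.congr_deriv ?_
    have h3 : ((n : ℂ) + 1 + 1) * (b (α + 1) (n + 1 + 1) : ℂ) = ((α : ℂ) + 1) * (b α (n + 1) : ℂ) := by
      have := b_absorb α (n + 1)
      push_cast at this
      exact_mod_cast this
    rw [A_succ α n]
    push_cast
    linear_combination (pt θ ^ (n + 1) * (I * pt θ)) * h3

lemma im_sum_le {a : ℝ} (h0 : 0 ≤ a) (h1 : a < 1) (n : ℕ) (θ : ℝ) (hs : 0 ≤ Real.sin θ) :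
    |((starRingEnd ℂ) (pt θ) ^ n * A a n (pt θ)).im| ≤ 2 * n * Real.sin θ := by
  have e : (starRingEnd ℂ) (pt θ) ^ n * A a n (pt θ) =
      ∑ k ∈ range (n + 1), (b a k : ℂ) * (starRingEnd ℂ) (pt ((n - k : ℕ) * θ)) := by
    unfold A
    rw [mul_sum]
    apply sum_congr rfl
    intro k hk
    have hk' : k ≤ n := by
      have := mem_range.mp hk
      omega
    have h2 : (starRingEnd ℂ) (pt θ) * pt θ = 1 := by
      rw [← Complex.normSq_eq_conj_mul_self, Complex.normSq_eq_norm_sq, pt_norm]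
      simp
    have h3 : (starRingEnd ℂ) (pt θ) ^ n = (starRingEnd ℂ) (pt θ) ^ (n - k) * (starRingEnd ℂ) (pt θ) ^ k := by
      rw [← pow_add]; congr 1; omega
    have h4 : (starRingEnd ℂ) (pt θ) ^ k * pt θ ^ k = 1 := by
      rw [← mul_pow, h2, one_pow]
    rw [← pt_pow, map_pow, h3]
    linear_combination ((starRingEnd ℂ) (pt θ) ^ (n - k) * (b a k : ℂ)) * h4
  rw [e, Complex.im_sum]
  have h5 : ∀ k ∈ range (n + 1), |((b a k : ℂ) * (starRingEnd ℂ) (pt ((n - k : ℕ) * θ))).im| ≤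
      |b a k| * (n * Real.sin θ) := by
    intro k hk
    rw [Complex.im_ofReal_mul, abs_mul]
    apply mul_le_mul_of_nonneg_left _ (abs_nonneg _)
    rw [Complex.conj_im, abs_neg, pt_im]
    refine (abs_sin_nat_mul _ _).trans ?_
    rw [abs_of_nonneg hs]
    apply mul_le_mul_of_nonneg_right _ hs
    exact_mod_cast Nat.sub_le n k
  refine (abs_sum_le_sum_abs _ _).trans ((sum_le_sum h5).trans ?_)
  rw [← sum_mul]
  have h6 := sum_abs_le h0 h1 n
  have h7 : 0 ≤ n * Real.sin θ := by positivity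
  nlinarith

/-- lower bound for the partial sums on the right half circle -/
lemma B_lower {a : ℝ} (h0 : 0 ≤ a) (h1 : a < 1) (n : ℕ) (x : ℂ) (hx : ‖x‖ = 1)
    (hre : 0 ≤ x.re) : 3 / 4 ≤ ‖A a (n + 1) x‖ := by
  have h2 := B_dist h0 h1 n x hx
  have hx2 : x.re ^ 2 + x.im ^ 2 = 1 := by
    have : ‖x‖ ^ 2 = 1 := by rw [hx]; norm_num
    rw [← Complex.normSq_eq_norm_sq, Complex.normSq_apply] at this
    linarith
  have hle : x.re ≤ 1 := by nlinarith [sq_nonneg x.im]
  have h3 : (1 + a / 2) * ‖1 + x‖ ≤ ‖1 + ((a : ℂ) + 1) * x‖ := by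
    apply le_of_sq_le_sq _ (norm_nonneg _)
    rw [mul_pow, ← Complex.normSq_eq_norm_sq, ← Complex.normSq_eq_norm_sq, Complex.normSq_apply,
      Complex.normSq_apply]
    simp
    have e : (1 + (a + 1) * x.re) * (1 + (a + 1) * x.re) + (a + 1) * x.im * ((a + 1) * x.im) -
      (1 + a / 2) ^ 2 * ((1 + x.re) * (1 + x.re) + x.im * x.im) = a ^ 2 * (1 - x.re) / 2 +
        (x.re ^ 2 + x.im ^ 2 - 1) * ((a + 1) ^ 2 - (1 + a / 2) ^ 2) := by ring
    have e2 : 0 ≤ a ^ 2 * (1 - x.re) / 2 := by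
      have := sub_nonneg.mpr hle
      positivity
    rw [hx2] at e
    linarith
  have h4 : 4 / 3 ≤ ‖1 + x‖ := by
    apply le_of_sq_le_sq _ (norm_nonneg _)
    rw [← Complex.normSq_eq_norm_sq, Complex.normSq_apply]
    simp
    nlinarith
  have h5 : ‖1 + ((a : ℂ) + 1) * x‖ - a ≤ ‖1 + x‖ * ‖A a (n + 1) x‖ := by
    rw [← norm_mul]
    have h6 : ‖1 + ((a : ℂ) + 1) * x‖ ≤ ‖(1 + x) * A a (n + 1) x‖ +
        ‖(1 + x) * A a (n + 1) x - (1 + ((a : ℂ) + 1) * x)‖ := by
      have := norm_sub_le ((1 + x) * A a (n + 1) x)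
        ((1 + x) * A a (n + 1) x - (1 + ((a : ℂ) + 1) * x))
      rwa [sub_sub_cancel] at this
    linarith
  have h7 : 3 / 4 * ‖1 + x‖ ≤ ‖1 + x‖ * ‖A a (n + 1) x‖ := by nlinarith
  have h8 : 0 < ‖1 + x‖ := by linarith
  nlinarith

/-- Monotonicity on the quarter circle. -/
lemma right_case_pt {a : ℝ} (h0 : 0 ≤ a) (h1 : a < 1) (n : ℕ) (θ : ℝ) (hθ0 : 0 ≤ θ)
    (hθ1 : θ ≤ Real.pi / 2) :
    ‖A (a + 1) (n + 2) (pt θ)‖ ^ 2 ≤ ‖A (a + 1) (n + 2) (pt 0)‖ ^ 2 := by
  have hder : ∀ t : ℝ, HasDerivAt (fun t : ℝ => ‖A (a + 1) (n + 2) (pt t)‖ ^ 2)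
      (-2 * (a + 1) * (Real.sin t * ‖A a (n + 1) (pt t)‖ ^ 2 +
        b a (n + 2) * ((starRingEnd ℂ) (pt t) ^ (n + 1) * A a (n + 1) (pt t)).im)) t := by
    intro t
    have h2 := (hasDerivAt_A a (n + 1) t).norm_sq
    refine h2.congr_deriv ?_
    rw [A_factor a (n + 1)]
    have h3 : (starRingEnd ℂ) (pt t) * pt t = 1 := by
      rw [← Complex.normSq_eq_conj_mul_self, Complex.normSq_eq_norm_sq, pt_norm]
      simp
    have hinner : ∀ z w : ℂ, inner ℝ z w = ((starRingEnd ℂ) z * w).re := fun z w => by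
      rw [Complex.inner, mul_comm]
    rw [hinner]
    have e : (starRingEnd ℂ) ((1 + pt t) * A a (n + 1) (pt t) +
        (b a (n + 1 + 1) : ℂ) * pt t ^ (n + 1 + 1)) *
          (((a : ℂ) + 1) * I * pt t * A a (n + 1) (pt t)) =
        I * (((a + 1 : ℝ) : ℂ) * ((1 + pt t) * ((‖A a (n + 1) (pt t)‖ ^ 2 : ℝ) : ℂ) +
          (b a (n + 2) : ℂ) * ((starRingEnd ℂ) (pt t) ^ (n + 1) * A a (n + 1) (pt t)))) := by
      have h5 : (starRingEnd ℂ) (A a (n + 1) (pt t)) * A a (n + 1) (pt t) =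
          ((‖A a (n + 1) (pt t)‖ ^ 2 : ℝ) : ℂ) := by
        rw [← Complex.normSq_eq_conj_mul_self, Complex.normSq_eq_norm_sq]
      rw [← h5]
      simp only [map_add, map_mul, map_one, map_pow, Complex.conj_ofReal]
      push_cast
      linear_combination (((a : ℂ) + 1) * I * (A a (n + 1) (pt t)) * ((starRingEnd ℂ) (A a (n + 1) (pt t)) +
        (b a (n + 2) : ℂ) * (starRingEnd ℂ) (pt t) ^ (n + 1))) * h3
    rw [e, Complex.I_mul_re, Complex.im_ofReal_mul, Complex.add_im, Complex.im_ofReal_mul,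
      Complex.im_mul_ofReal]
    simp only [Complex.add_im, Complex.one_im, zero_add, pt_im]
    ring
  have hanti : AntitoneOn (fun t : ℝ => ‖A (a + 1) (n + 2) (pt t)‖ ^ 2) (Set.Icc 0 (Real.pi / 2)) := by
    apply antitoneOn_of_deriv_nonpos (convex_Icc _ _)
    · exact fun t _ => (hder t).continuousAt.continuousWithinAt
    · exact fun t _ => (hder t).differentiableAt.differentiableWithinAt
    · intro t ht
      rw [interior_Icc] at ht
      rw [(hder t).deriv]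
      have hs : 0 ≤ Real.sin t :=
        Real.sin_nonneg_of_nonneg_of_le_pi ht.1.le (by linarith [ht.2, Real.pi_pos])
      have hc : 0 ≤ (pt t).re := by
        rw [pt_re]
        exact Real.cos_nonneg_of_neg_pi_div_two_le_of_le (by linarith [ht.1, Real.pi_pos]) ht.2.le
      have hB := B_lower h0 h1 n (pt t) (pt_norm t) hc
      have hI := im_sum_le h0 h1 (n + 1) t hs
      have hb := abs_b_le' h0 h1 n
      have h3 : |b a (n + 2) * ((starRingEnd ℂ) (pt t) ^ (n + 1) * A a (n + 1) (pt t)).im| ≤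
          Real.sin t / 2 := by
        rw [abs_mul]
        refine (mul_le_mul hb hI (abs_nonneg _) (by positivity)).trans ?_
        push_cast
        rw [div_mul_eq_mul_div, div_le_div_iff₀ (by positivity) (by positivity)]
        have hn : (0 : ℝ) ≤ n := by positivity
        nlinarith [mul_nonneg hn hs]
      have h4 := neg_abs_le (b a (n + 2) * ((starRingEnd ℂ) (pt t) ^ (n + 1) * A a (n + 1) (pt t)).im)
      have h5 : (9 : ℝ) / 16 ≤ ‖A a (n + 1) (pt t)‖ ^ 2 := by nlinarith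
      have h6 : 0 ≤ Real.sin t * ‖A a (n + 1) (pt t)‖ ^ 2 +
        b a (n + 2) * ((starRingEnd ℂ) (pt t) ^ (n + 1) * A a (n + 1) (pt t)).im := by nlinarith
      nlinarith
  exact hanti (Set.left_mem_Icc.mpr (by positivity)) ⟨hθ0, hθ1⟩ hθ0

lemma A_conj (α : ℝ) (n : ℕ) (x : ℂ) :
    A α n ((starRingEnd ℂ) x) = (starRingEnd ℂ) (A α n x) := by
  simp [A, map_sum]

lemma right_case {a : ℝ} (h0 : 0 ≤ a) (h1 : a < 1) (n : ℕ) (x : ℂ) (hx : ‖x‖ = 1)
    (hre : 0 ≤ x.re) : ‖A (a + 1) (n + 2) x‖ ≤ V (a + 1) (n + 2) := by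
  have hV : 0 ≤ V (a + 1) (n + 2) := by
    have := V_big h0 h1 n
    nlinarith
  have hpt0 : pt 0 = 1 := by simp [pt]
  have key : ∀ θ : ℝ, 0 ≤ θ → θ ≤ Real.pi / 2 → ‖A (a + 1) (n + 2) (pt θ)‖ ≤ V (a + 1) (n + 2) := by
    intro θ h2 h3
    apply le_of_sq_le_sq _ hV
    refine (right_case_pt h0 h1 n θ h2 h3).trans ?_
    rw [hpt0, A_one, Complex.norm_real, Real.norm_eq_abs, sq_abs]
  have hxarg : x = pt (Complex.arg x) := by
    have := Complex.norm_mul_exp_arg_mul_I x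
    rw [hx] at this
    simpa [pt] using this.symm
  have harg := Complex.abs_arg_le_pi_div_two_iff.mpr hre
  rcases le_total 0 (Complex.arg x) with h | h
  · rw [hxarg]
    exact key _ h (by rwa [abs_of_nonneg h] at harg)
  · have h2 := key (-Complex.arg x) (by linarith) (by rwa [abs_of_nonpos h] at harg)
    have h3 : pt (-Complex.arg x) = (starRingEnd ℂ) x := by
      conv_rhs => rw [hxarg]
      apply Complex.ext
      · rw [pt_re, Complex.conj_re, pt_re, Real.cos_neg]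
      · rw [pt_im, Complex.conj_im, pt_im, Real.sin_neg]
    rw [h3, A_conj, RCLike.norm_conj] at h2
    exact h2

/-- The case `1 ≤ α < 2`. -/
theorem middle {a : ℝ} (h0 : 0 ≤ a) (h1 : a < 1) (n : ℕ) (x : ℂ) (hx : ‖x‖ = 1) :
    ‖A (a + 1) n x‖ ≤ V (a + 1) n := by
  match n with
  | 0 => simp [A_zero, V_zero]
  | 1 =>
    simp only [A, V, sum_range_succ, range_zero, sum_empty, b_zero, b_one, zero_add, pow_zero,
      mul_one, pow_one]
    refine (norm_add_le _ _).trans ?_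
    rw [norm_mul, hx, mul_one, Complex.norm_real, Complex.norm_real, Real.norm_eq_abs,
      Real.norm_eq_abs, abs_one, abs_of_nonneg (by linarith)]
  | n + 2 =>
    rcases le_total 0 x.re with h | h
    · exact right_case h0 h1 n x hx h
    · exact left_case h0 h1 n x hx h

end Pool.Agent.K9h78.Brannan
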