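import Pool.Agent.K9h78.Brannan.Repr

/-!
# The case `0 < α < 1`
-/

set_option autoImplicit false

namespace Pool.Agent.K9h78.Brannan

open Set MeasureTheory intervalIntegral Filter Topology

lemma choose_eq (a : ℝ) (k : ℕ) : Ring.choose (a : ℂ) k = (b a k : ℂ) := by
  have h1 : ∀ n : ℕ, (descPochhammer ℤ n).smeval (a : ℂ) = ∏ j ∈ Finset.range n, ((a : ℂ) - (j : ℂ)) := by
    intro n
    induction n with
    | zero => simp
    | succ n ih =>
      rw [Finset.prod_range_succ, ← ih]
      simp [descPochhammer_succ_right, Polynomial.smeval_mul, Polynomial.smeval_natCast]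
  have h2 := Ring.descPochhammer_eq_factorial_smul_choose (a : ℂ) k
  rw [h1, nsmul_eq_mul] at h2
  have h3 : (k.factorial : ℂ) ≠ 0 := by exact_mod_cast Nat.factorial_ne_zero k
  unfold b
  push_cast
  rw [h2]
  field_simp

lemma hasSum_ball (a : ℝ) (x : ℂ) (hx : ‖x‖ < 1) :
    HasSum (fun k : ℕ => (b a k : ℂ) * x ^ k) ((1 + x) ^ (a : ℂ)) := by
  have h := (Complex.one_add_cpow_hasFPowerSeriesOnBall_zero (a := (a : ℂ))).hasSum
    (y := x) (by
      rw [← ENNReal.ofReal_one, Metric.eball_ofReal]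
      simpa using hx)
  rw [zero_add] at h
  have e : (fun n : ℕ => (binomialSeries ℂ (a : ℂ) n) fun _ => x) = fun k => (b a k : ℂ) * x ^ k := by
    funext k
    rw [binomialSeries_apply, choose_eq, smul_eq_mul]
    simp
  rw [e] at h
  exact h

lemma hasSum_closedBall {a : ℝ} (h0 : 0 < a) (h1 : a < 1) (x : ℂ) (hx : ‖x‖ ≤ 1) (hx1 : x ≠ -1) :
    HasSum (fun k : ℕ => (b a k : ℂ) * x ^ k) ((1 + x) ^ (a : ℂ)) := by
  have hsum : ∀ y : ℂ, ‖y‖ ≤ 1 → Summable (fun k : ℕ => (b a k : ℂ) * y ^ k) := by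
    intro y hy
    apply Summable.of_norm_bounded (summable_abs h0 h1)
    intro k
    rw [norm_mul, norm_pow, Complex.norm_real, Real.norm_eq_abs]
    exact mul_le_of_le_one_right (abs_nonneg _) (pow_le_one₀ (norm_nonneg _) hy)
  have hcont : ContinuousOn (fun y : ℂ => ∑' k : ℕ, (b a k : ℂ) * y ^ k) (Metric.closedBall 0 1) := by
    apply continuousOn_tsum (u := fun k => |b a k|) _ (summable_abs h0 h1)
    · intro k y hy
      rw [norm_mul, norm_pow, Complex.norm_real, Real.norm_eq_abs]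
      apply mul_le_of_le_one_right (abs_nonneg _) (pow_le_one₀ (norm_nonneg _) _)
      simpa using hy
    · intro k
      exact (continuous_const.mul (continuous_pow k)).continuousOn
  -- the sequence
  set r : ℕ → ℂ := fun n => (((n : ℝ) / ((n : ℝ) + 1) : ℝ) : ℂ) * x with hr
  have hr_norm : ∀ n, ‖r n‖ < 1 := by
    intro n
    simp only [hr]
    rw [norm_mul, Complex.norm_real, Real.norm_eq_abs, abs_of_nonneg (by positivity)]
    have h2 : (n : ℝ) / ((n : ℝ) + 1) < 1 := by
      rw [div_lt_one (by positivity)]; linarith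
    have h3 : (0:ℝ) ≤ (n : ℝ) / ((n : ℝ) + 1) := by positivity
    nlinarith [norm_nonneg x]
  have hr_lim : Tendsto r atTop (𝓝 x) := by
    have h2 : Tendsto (fun n : ℕ => (n : ℝ) / ((n : ℝ) + 1)) atTop (𝓝 1) :=
      tendsto_natCast_div_add_atTop 1
    have h3 := ((Complex.continuous_ofReal.tendsto 1).comp h2).mul_const x
    rw [Complex.ofReal_one, one_mul] at h3
    exact h3
  have hL : Tendsto (fun n => ∑' k : ℕ, (b a k : ℂ) * (r n) ^ k) atTop
      (𝓝 (∑' k : ℕ, (b a k : ℂ) * x ^ k)) := by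
    have hx' : x ∈ Metric.closedBall (0:ℂ) 1 := by simpa using hx
    have h2 := hcont x hx'
    apply h2.tendsto.comp
    rw [tendsto_nhdsWithin_iff]
    refine ⟨hr_lim, Eventually.of_forall fun n => ?_⟩
    simpa using (hr_norm n).le
  have hR : Tendsto (fun n => (1 + r n) ^ (a : ℂ)) atTop (𝓝 ((1 + x) ^ (a : ℂ))) := by
    have hslit : 1 + x ∈ Complex.slitPlane := by
      left
      have h2 : -1 ≤ x.re := by
        have := Complex.abs_re_le_norm x
        have := neg_abs_le x.re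
        linarith
      rcases eq_or_lt_of_le h2 with h3 | h3
      · exfalso
        apply hx1
        have h4 : x.re ^ 2 + x.im ^ 2 ≤ 1 := by
          have : ‖x‖ ^ 2 ≤ 1 := pow_le_one₀ (norm_nonneg _) hx
          rw [← Complex.normSq_eq_norm_sq, Complex.normSq_apply] at this
          linarith
        have h5 : x.im = 0 := by
          rw [← h3] at h4
          nlinarith [sq_nonneg x.im]
        apply Complex.ext
        · rw [← h3]; simp
        · rw [h5]; simp
      · simp; linarith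
    have h3 : ContinuousAt (fun y : ℂ => (1 + y) ^ (a : ℂ)) x :=
      (continuousAt_const.add continuousAt_id).cpow continuousAt_const hslit
    exact h3.tendsto.comp hr_lim
  have heq : (fun n => ∑' k : ℕ, (b a k : ℂ) * (r n) ^ k) = fun n => (1 + r n) ^ (a : ℂ) := by
    funext n
    exact (hasSum_ball a (r n) (hr_norm n)).tsum_eq
  rw [heq] at hL
  rw [tendsto_nhds_unique hR hL]
  exact (hsum x hx).hasSum

/-- The key identity, for odd `m`. -/
lemma A_repr {a : ℝ} (h0 : 0 < a) (h1 : a < 1) (m : ℕ) (hm : Odd m) (x : ℂ) (hx : ‖x‖ ≤ 1)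
    (hx1 : x ≠ -1) :
    A a m x = (1 + x) ^ (a : ℂ) + x ^ (m + 1) *
      (s a * ∫ t in (0:ℝ)..1, (w a (m - a) t : ℂ) / (1 + t * x)) := by
  have hm1 : 1 ≤ m := hm.pos
  have h2 := hasSum_closedBall h0 h1 x hx hx1
  have h3 := h2.summable.sum_add_tsum_nat_add (m + 1)
  rw [h2.tsum_eq] at h3
  have h4 := (hasSum_tail h0 h1 m hm1 (-x) (by rwa [norm_neg])).mul_left (-x ^ (m + 1))
  have e1 : (fun j : ℕ => -x ^ (m + 1) * (((|b a (m + 1 + j)| : ℝ) : ℂ) * (-x) ^ j)) =
      fun j : ℕ => (b a (j + (m + 1)) : ℂ) * x ^ (j + (m + 1)) := by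
    funext j
    have h5 : |b a (m + 1 + j)| = -((-1) ^ j * b a (m + 1 + j)) := by
      rw [show m + 1 + j = (m + j) + 1 by ring, abs_a h0.le h1, pow_add, hm.neg_one_pow]
      ring
    rw [h5, show j + (m + 1) = m + 1 + j by ring, pow_add x (m + 1) j, neg_pow x j]
    push_cast
    have : ((-1 : ℂ) ^ j) * (-1) ^ j = 1 := by
      rw [← pow_add, ← two_mul, pow_mul]; simp
    linear_combination (x ^ (m + 1) * x ^ j * (b a (m + 1 + j) : ℂ)) * this
  rw [e1] at h4
  rw [h4.tsum_eq] at h3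
  have e2 : ∀ t : ℝ, (1 - (t : ℂ) * -x) = 1 + t * x := fun t => by ring
  simp only [e2] at h3
  unfold A
  linear_combination h3

lemma norm_eq {x : ℂ} (hx : ‖x‖ = 1) {t : ℝ} (ht : 0 ≤ t) :
    ‖1 + (t : ℂ) * x‖ = √(D (‖1 + x‖ / 2) t) := by
  have hx2 : x.re ^ 2 + x.im ^ 2 = 1 := by
    have : ‖x‖ ^ 2 = 1 := by rw [hx]; norm_num
    rw [← Complex.normSq_eq_norm_sq, Complex.normSq_apply] at this
    linarith
  have h1 : ‖1 + (t : ℂ) * x‖ ^ 2 = D (‖1 + x‖ / 2) t := by
    unfold D
    rw [div_pow, ← Complex.normSq_eq_norm_sq, ← Complex.normSq_eq_norm_sq, Complex.normSq_apply,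
      Complex.normSq_apply]
    simp
    linear_combination (t ^ 2 - t) * hx2
  rw [← h1, Real.sqrt_sq (norm_nonneg _)]

/-- The value at `-1`. -/
lemma A_neg_one (a : ℝ) (m : ℕ) : A a m (-1) = (((-1) ^ m * b (a - 1) m : ℝ) : ℂ) := by
  have h := alt_sum (a - 1) m
  rw [sub_add_cancel] at h
  rw [← h]
  unfold A
  push_cast
  apply Finset.sum_congr rfl
  intro k _
  ring

lemma V_ge_one {a : ℝ} (h0 : 0 < a) (h1 : a < 1) (m : ℕ) (hm : Odd m) : 1 ≤ V a m := by
  obtain ⟨k, rfl⟩ := hm
  have h2 := V_lower' h0.le h1 (2 * k)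
  have h3 := abs_b_le h0.le h1 0
  norm_num at h3
  nlinarith

/-- The case `0 < α < 1`, `m` odd. -/
theorem small {a : ℝ} (h0 : 0 < a) (h1 : a < 1) (m : ℕ) (hm : Odd m) (x : ℂ) (hx : ‖x‖ = 1) :
    ‖A a m x‖ ≤ V a m := by
  rcases eq_or_ne x (-1) with rfl | hx1
  · rw [A_neg_one, Complex.norm_real, Real.norm_eq_abs, abs_of_nonneg (neg_sign h1 m)]
    have h2 := sum_abs_eq h0.le h1 m
    have h3 : |b a 0| ≤ ∑ k ∈ Finset.range (m + 1), |b a k| :=
      Finset.single_le_sum (f := fun k => |b a k|) (fun _ _ => abs_nonneg _) (by simp)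
    rw [b_zero, abs_one] at h3
    have := V_ge_one h0 h1 m hm
    linarith
  have hm1 : (1:ℝ) ≤ m := by exact_mod_cast hm.pos
  have hp : 0 < (m : ℝ) - a := by linarith
  set c := ‖1 + x‖ / 2 with hc
  have hcpos : 0 < c := by
    have : 0 < ‖1 + x‖ := by
      rw [norm_pos_iff]
      intro h
      apply hx1
      linear_combination h
    positivity
  have hc1 : c ≤ 1 := by
    have := norm_add_le 1 x
    rw [hx, norm_one] at this
    linarith
  have hwc := w_cont h0 hp
  have hcontc : ∀ κ : ℝ, 0 < κ → ContinuousOn (fun t => w a (m - a) t * (1 / √(D κ t))) (uIcc 0 1) := by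
    intro κ hκ
    rw [uIcc_of_le zero_le_one]
    apply hwc.continuousOn.mul
    apply ContinuousOn.div continuousOn_const (by unfold D; fun_prop)
    intro t ht
    exact (Real.sqrt_pos.mpr (D_pos hκ ht.1)).ne'
  -- upper bound for the left-hand side
  have hA : ‖A a m x‖ ≤ 2 ^ a * c ^ a + s a * ∫ t in (0:ℝ)..1, w a (m - a) t * (1 / √(D c t)) := by
    rw [A_repr h0 h1 m hm x hx.le hx1]
    refine (norm_add_le _ _).trans (add_le_add ?_ ?_)
    · rw [Complex.norm_cpow_real, ← Real.mul_rpow (by norm_num) hcpos.le]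
      have : ‖1 + x‖ = 2 * c := by rw [hc]; ring
      rw [this]
    · rw [norm_mul, norm_pow, hx, one_pow, one_mul, norm_mul, Complex.norm_real, Real.norm_eq_abs,
        abs_of_nonneg (s_nonneg h0 h1)]
      apply mul_le_mul_of_nonneg_left _ (s_nonneg h0 h1)
      apply (intervalIntegral.norm_integral_le_integral_norm zero_le_one).trans
      apply le_of_eq
      apply intervalIntegral.integral_congr
      intro t ht
      rw [uIcc_of_le zero_le_one] at ht
      simp only
      rw [norm_div, Complex.norm_real, Real.norm_eq_abs, abs_of_nonneg (w_nonneg ht.1 ht.2),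
        norm_eq hx ht.1]
      ring
  have hV : V a m = 2 ^ a + s a * ∫ t in (0:ℝ)..1, w a (m - a) t * (1 / √(D 1 t)) := by
    have h3 := A_repr h0 h1 m hm 1 (by simp) (by
      intro h
      have := congrArg Complex.re h
      norm_num at this)
    rw [A_one] at h3
    have h4 : ∫ t in (0:ℝ)..1, (w a (m - a) t : ℂ) / (1 + t * 1) =
        ((∫ t in (0:ℝ)..1, w a (m - a) t * (1 / √(D 1 t)) : ℝ) : ℂ) := by
      rw [← intervalIntegral.integral_ofReal]
      apply intervalIntegral.integral_congr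
      intro t ht
      rw [uIcc_of_le zero_le_one] at ht
      simp only
      have h5 : √(D 1 t) = 1 + t := by
        unfold D
        rw [show (1 - t) ^ 2 + 4 * t * 1 ^ 2 = (1 + t) ^ 2 by ring]
        exact Real.sqrt_sq (by linarith [ht.1])
      rw [h5]
      push_cast
      ring
    rw [h4, one_pow, one_mul] at h3
    have h6 : (1 + 1 : ℂ) ^ (a : ℂ) = ((2 ^ a : ℝ) : ℂ) := by
      rw [Complex.ofReal_cpow (by norm_num)]
      norm_num
    rw [h6] at h3
    exact_mod_cast h3
  have hmain := main_integral h0 h1 hp hcpos hc1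
  have hsub : ∫ t in (0:ℝ)..1, w a (m - a) t * (1 / √(D c t) - 1 / √(D 1 t)) =
      (∫ t in (0:ℝ)..1, w a (m - a) t * (1 / √(D c t))) -
        ∫ t in (0:ℝ)..1, w a (m - a) t * (1 / √(D 1 t)) := by
    rw [← intervalIntegral.integral_sub ((hcontc c hcpos).intervalIntegrable)
      ((hcontc 1 one_pos).intervalIntegrable)]
    apply intervalIntegral.integral_congr
    intro t ht
    simp only
    ring
  rw [hsub] at hmain
  have hR : 0 ≤ 2 ^ a * (1 - c ^ a) / a := by
    have : c ^ a ≤ 1 := Real.rpow_le_one hcpos.le hc1 h0.le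
    have : 0 ≤ 1 - c ^ a := by linarith
    positivity
  have h7 := mul_le_mul_of_nonneg_left hmain (s_nonneg h0 h1)
  have h8 := mul_le_mul_of_nonneg_right (s_le h0 h1) hR
  have h9 : a * (2 ^ a * (1 - c ^ a) / a) = 2 ^ a * (1 - c ^ a) := by field_simp
  rw [h9] at h8
  rw [hV]
  refine hA.trans ?_
  linarith

/-- All `α > 0`, odd `m`. -/
theorem brannan (α : ℝ) (hα : 0 < α) (m : ℕ) (hm : Odd m) (x : ℂ) (hx : ‖x‖ = 1) :
    ‖A α m x‖ ≤ V α m := by
  rcases lt_or_ge α 1 with h | h
  · exact small hα h m hm x hx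
  · have key : ∀ N : ℕ, ∀ a : ℝ, 0 ≤ a → a < 1 → ∀ n x, ‖x‖ = 1 → ‖A (a + 1 + N) n x‖ ≤ V (a + 1 + N) n := by
      intro N
      induction N with
      | zero =>
        intro a h0 h1 n x hx
        simpa using middle h0 h1 n x hx
      | succ N ih =>
        intro a h0 h1
        have := step (ih a h0 h1)
        rw [show a + 1 + N + 1 = a + 1 + ((N + 1 : ℕ) : ℝ) by push_cast; ring] at this
        exact this
    have h2 := key ⌊α - 1⌋₊ (Int.fract (α - 1)) (Int.fract_nonneg _) (Int.fract_lt_one _) m x hx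
    have h3 : Int.fract (α - 1) + 1 + (⌊α - 1⌋₊ : ℝ) = α := by
      have h4 : ((⌊α - 1⌋₊ : ℕ) : ℝ) = ((⌊α - 1⌋ : ℤ) : ℝ) := by
        have := Int.natCast_floor_eq_floor (a := α - 1) (by linarith)
        exact_mod_cast this
      rw [h4]
      have := Int.fract_add_floor (α - 1)
      linarith
    rw [h3] at h2
    exact h2

end Pool.Agent.K9h78.Brannan
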